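import Pool.Agent.W787.PS.StmA

/-!
# PS-LQ: mass of blow-up limits
-/

set_option autoImplicit false

open MeasureTheory Set Metric Filter Topology

noncomputable section

namespace Pool.Agent.W787.PS.Lq

open Pool.Agent.W787.PS

theorem cover_le (f : ℂ → ℝ) (hf : Integrable f) (h0 : ∀ x, 0 ≤ f x) (A : Set ℂ)
    (hA : MeasurableSet A) (t : Finset ℂ) (B : ℂ → Set ℂ) (hB : ∀ y, MeasurableSet (B y))
    (hc : A ⊆ ⋃ y ∈ t, B y) : ∫ x in A, f x ≤ ∑ y ∈ t, ∫ x in B y, f x := by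
  rw [← integral_indicator hA]
  simp_rw [← integral_indicator (hB _)]
  rw [← integral_finsetSum _ (fun y _ => hf.indicator (hB y))]
  apply integral_mono (hf.indicator hA) (integrable_finsetSum _ fun y _ => hf.indicator (hB y))
  intro x
  simp only
  by_cases hx : x ∈ A
  · obtain ⟨y, hy, hxy⟩ := mem_iUnion₂.1 (hc hx)
    rw [indicator_of_mem hx]
    calc f x = (B y).indicator f x := by rw [indicator_of_mem hxy]
      _ ≤ ∑ y ∈ t, (B y).indicator f x :=
        Finset.single_le_sum (f := fun y => (B y).indicator f x)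
          (fun z _ => indicator_nonneg (fun _ _ => h0 _) x) hy
  · rw [indicator_of_notMem hx]
    exact Finset.sum_nonneg fun z _ => indicator_nonneg (fun _ _ => h0 _) x

theorem blow_seq {𝒰 : Ultrafilter ℕ} {Λ : ℝ} {ρ g w : ℕ → ℂ → ℝ} (h : IsBlow 𝒰 Λ ρ g w)
    {R : ℝ} (hR : 0 < R) : IsSeq 𝒰 Λ R 1 ρ g w := fun ε hε => h R 1 ε hR one_pos hε

theorem lqa (h1 : S_L2B) (h2 : S_REG) : S_LQA := by
  intro 𝒰 Λ ρ g w hΛ hb hna m M hm hM hM0
  refine h2 𝒰 Λ ρ g w hb ?_ m M hm hM hM0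
  intro R hR
  choose r hr hrn using hna
  have hC : ∀ y : ℂ, ∃ C : ℝ, ∀ᶠ n in (𝒰 : Filter ℕ), ∫ x in ball y (r y / 4), ρ n x ^ 2 ≤ C := by
    intro y
    have hpos : 0 < ‖y‖ + r y := add_pos_of_nonneg_of_pos (norm_nonneg _) (hr y)
    exact h1 𝒰 Λ (‖y‖ + r y) 1 ρ g w hpos zero_le_one hΛ (blow_seq hb hpos) y (r y) (hr y) le_rfl
      (hrn y)
  choose C hCn using hC
  obtain ⟨t, ht⟩ := (isCompact_closedBall (0 : ℂ) R).elim_nhds_subcover (fun y => ball y (r y / 4))
    (fun y _ => ball_mem_nhds y (by have := hr y; positivity))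
  refine ⟨∑ y ∈ t, C y, ?_⟩
  have hev : ∀ᶠ n in (𝒰 : Filter ℕ), ∀ y ∈ t, ∫ x in ball y (r y / 4), ρ n x ^ 2 ≤ C y := by
    rw [Filter.eventually_all_finset]
    exact fun y _ => hCn y
  filter_upwards [hev, hb 1 1 1 one_pos one_pos one_pos] with n hn hD
  have hint : Integrable (fun x => ρ n x ^ 2) := by
    apply Continuous.integrable_of_hasCompactSupport
    · exact hD.diff.continuous.pow 2
    · have := hD.supp.comp_left (g := fun y : ℝ => y ^ 2) (by norm_num)
      exact this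
  calc ∫ x in ball (0 : ℂ) R, ρ n x ^ 2 ≤ ∑ y ∈ t, ∫ x in ball y (r y / 4), ρ n x ^ 2 :=
        cover_le _ hint (fun x => sq_nonneg _) _ measurableSet_ball t _
          (fun y => measurableSet_ball) (ball_subset_closedBall.trans ht.2)
    _ ≤ ∑ y ∈ t, C y := Finset.sum_le_sum fun y hy => hn y hy

/-- a good density -/
def Good (Λ : ℝ) (ρ : ℂ → ℝ) : Prop :=
  Continuous ρ ∧ HasCompactSupport ρ ∧ (∀ x, 0 ≤ ρ x) ∧ ∫ x, ρ x ≤ Λ

theorem Good.int {Λ : ℝ} {ρ : ℂ → ℝ} (h : Good Λ ρ) : Integrable ρ :=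
  h.1.integrable_of_hasCompactSupport h.2.1

open Classical in
/-- the measures -/
def mu (Λ : ℝ) (ρ : ℂ → ℝ) : Measure ℂ :=
  if Good Λ ρ then volume.withDensity (fun x => ENNReal.ofReal (ρ x)) else 0

theorem mu_real {Λ : ℝ} {ρ : ℂ → ℝ} (h : Good Λ ρ) {S : Set ℂ} (hS : MeasurableSet S) :
    (mu Λ ρ).real S = ∫ x in S, ρ x := by
  unfold mu
  rw [if_pos h, measureReal_def, withDensity_apply _ hS,
    integral_eq_lintegral_of_nonneg_ae (ae_of_all _ h.2.2.1) (h.1.aestronglyMeasurable)]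

theorem mu_finite {Λ : ℝ} {ρ : ℂ → ℝ} : IsFiniteMeasure (mu Λ ρ) := by
  unfold mu
  split_ifs with h
  · exact isFiniteMeasure_withDensity_ofReal h.int.2
  · infer_instance

theorem lqb (h1 : S_SCAL) (h2 : S_SCM) (h3 : S_MONO) (h4 : S_NSA) (h5 : S_AMI) (h6 : S_NAV)
    (h7 : S_ABS) : S_LQB := by
  intro 𝒰 Λ ρ g w hΛ hb hat hk m M hm hM hM0
  classical
  have hgood : ∀ᶠ n in (𝒰 : Filter ℕ), Good Λ (ρ n) := by
    filter_upwards [hb 1 1 1 one_pos one_pos one_pos] with n hD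
    exact ⟨hD.diff.continuous, hD.supp, hD.nonneg, hD.mass⟩
  set At : Set ℂ := {y | ∀ r : ℝ, 0 < r → ∀ᶠ n in (𝒰 : Filter ℕ), Real.pi < ms (ρ n) y r} with hAt
  have hπ : 0 < Real.pi := Real.pi_pos
  -- (1)
  have s1 : ∀ y ∈ At, ∀ r, 0 < r → ∀ κ, 0 < κ →
      ∀ᶠ n in (𝒰 : Filter ℕ), 4 * Real.pi - κ ≤ ms (ρ n) y r := by
    intro y hy r hr κ hκ
    by_contra hc
    rw [← Ultrafilter.eventually_not] at hc
    have hc' : ∀ᶠ n in (𝒰 : Filter ℕ), ms (ρ n) y r ≤ 4 * Real.pi - κ := by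
      filter_upwards [hc] with n hn
      exact (not_le.1 hn).le
    have hpos : 0 < ‖y‖ + r := add_pos_of_nonneg_of_pos (norm_nonneg _) hr
    obtain ⟨s, hs, hsn⟩ := h4 𝒰 Λ (‖y‖ + r) 1 ρ g w hpos zero_le_one hΛ (blow_seq hb hpos) y r
      (4 * Real.pi - κ) hr le_rfl (by linarith) hc' 1 one_pos
    obtain ⟨n, hn1, hn2⟩ := (hsn.and (hy s hs)).exists
    have := Real.pi_gt_three
    linarith
  obtain ⟨y₀, hy₀⟩ := hat
  -- (2)
  have s2 : ∀ r, 0 < r → ∀ A : ℝ, ∀ᶠ n in (𝒰 : Filter ℕ),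
      avg (fun x => Real.log (ρ n x)) y₀ r ≤ -A := by
    intro r hr A
    have hseq : IsSeq 𝒰 Λ (r + 1) 1 (fun n => scρ (ρ n) y₀ 1) (fun n => scg (ρ n) (g n) y₀ 1)
        (fun n => scw (w n) y₀ 1) := by
      intro ε hε
      filter_upwards [hb (‖y₀‖ + (r + 1)) 1 ε (by positivity) one_pos hε] with n hn
      have := h1 Λ (‖y₀‖ + (r + 1)) 1 ε (ρ n) (g n) (w n) hn y₀ 1 (r + 1) one_pos (by linarith)
        (by linarith)
      rwa [one_mul] at this
    have h8 := h5 𝒰 Λ (r + 1) 1 _ _ _ (by linarith) zero_le_one hΛ hseq (by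
      intro r' hr' _ κ hκ
      filter_upwards [s1 y₀ hy₀ r' hr' κ hκ] with n hn
      rw [h2.2.1 (ρ n) y₀ 0 1 r' one_pos]
      simpa using hn) r hr (by linarith) A
    filter_upwards [h8] with n hn
    have e1 : (fun x => Real.log (scρ (ρ n) y₀ 1 x)) =
        fun y => (fun x => Real.log (ρ n x)) (y₀ + ((1 : ℝ) : ℂ) * y) := by
      ext x
      simp [scρ]
    rw [e1, h2.1 (fun x => Real.log (ρ n x)) y₀ 0 1 r one_pos] at hn
    simpa using hn
  -- (3)
  have s3 : ∀ y, y ∉ At → ∃ r, 0 < r ∧ Tendsto (fun n => ms (ρ n) y r) 𝒰 (𝓝 0) := by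
    intro y hy
    simp only [hAt, mem_ofPred_eq, not_forall] at hy
    obtain ⟨r, hr, hn⟩ := hy
    rw [← Ultrafilter.eventually_not] at hn
    have hn' : ∀ᶠ n in (𝒰 : Filter ℕ), ms (ρ n) y r ≤ Real.pi := by
      filter_upwards [hn] with n hn
      exact not_lt.1 hn
    have hpos : 0 < ‖y₀‖ + 2 + (‖y‖ + r) := by positivity
    refine ⟨r / 4, by positivity, ?_⟩
    exact h6 𝒰 Λ (‖y₀‖ + 2 + (‖y‖ + r)) 1 ρ g w hpos zero_le_one hΛ (blow_seq hb hpos) y₀ 1 one_pos
      (by have := norm_nonneg y; linarith) (s2 1 one_pos) y r Real.pi hr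
      (by have := norm_nonneg y₀; linarith) (by linarith) hn'
  -- (4)
  have s4 : ∀ t : Finset ℂ, (∀ y ∈ t, y ∈ At) → (t.card : ℝ) * Real.pi ≤ Λ := by
    intro t ht
    obtain ⟨δ, hδ, hdis⟩ : ∃ δ : ℝ, 0 < δ ∧ ∀ y ∈ t, ∀ z ∈ t, y ≠ z → Disjoint (ball y δ) (ball z δ) := by
      obtain ⟨U, hU, hUd⟩ := t.finite_toSet.t2_separation
      have hev : ∀ᶠ δ in 𝓝[>] (0 : ℝ), ∀ y ∈ t, ball y δ ⊆ U y := by
        rw [Filter.eventually_all_finset]
        intro y _
        obtain ⟨e, he, heU⟩ := Metric.isOpen_iff.1 (hU y).2 y (hU y).1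
        filter_upwards [Ioo_mem_nhdsGT he] with δ hδ
        exact (ball_subset_ball hδ.2.le).trans heU
      obtain ⟨δ, hδ1, hδ2⟩ := (hev.and self_mem_nhdsWithin).exists
      exact ⟨δ, hδ2, fun y hy z hz hyz =>
        (hUd hy hz hyz).mono (hδ1 y hy) (hδ1 z hz)⟩
    have hev : ∀ᶠ n in (𝒰 : Filter ℕ), ∀ y ∈ t, Real.pi < ms (ρ n) y δ := by
      rw [Filter.eventually_all_finset]
      exact fun y hy => ht y hy δ hδ
    obtain ⟨n, hn, hG⟩ := (hev.and hgood).exists
    calc (t.card : ℝ) * Real.pi = ∑ y ∈ t, Real.pi := by simp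
      _ ≤ ∑ y ∈ t, ms (ρ n) y δ := Finset.sum_le_sum fun y hy => (hn y hy).le
      _ = ∫ x in ⋃ y ∈ t, ball y δ, ρ n x := by
          rw [integral_biUnion_finset]
          · rfl
          · exact fun y _ => measurableSet_ball
          · intro y hy z hz hyz
            exact hdis y hy z hz hyz
          · exact fun y _ => hG.int.integrableOn
      _ ≤ ∫ x, ρ n x := setIntegral_le_integral hG.int (ae_of_all _ hG.2.2.1)
      _ ≤ Λ := hG.2.2.2
  have hfin : At.Finite := by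
    by_contra hinf
    obtain ⟨N, hN⟩ := exists_nat_gt (Λ / Real.pi)
    obtain ⟨t, ht, hcard⟩ := (Set.Infinite.exists_subset_card_eq hinf N)
    have := s4 t (fun y hy => ht hy)
    rw [hcard] at this
    rw [div_lt_iff₀ hπ] at hN
    linarith
  obtain ⟨s₀, hs₀⟩ := hfin.isBounded.subset_ball (0 : ℂ)
  -- (5)
  have s5 : ∀ s, max s₀ 0 < s → ∃ k : ℕ, m s = 8 * Real.pi * k := by
    intro s hs
    have hs1 : s₀ < s := (le_max_left _ _).trans_lt hs
    have hs2 : 0 < s := (le_max_right _ _).trans_lt hs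
    have hms : ∀ (y : ℂ) (r : ℝ), ∀ᶠ n in (𝒰 : Filter ℕ),
        (mu Λ (ρ n)).real (ball y r) = ms (ρ n) y r := by
      intro y r
      filter_upwards [hgood] with n hG
      exact mu_real hG measurableSet_ball
    obtain ⟨S, m', hSK, hSτ, hSm, hSt⟩ := h7 ℂ 𝒰 (fun n => mu Λ (ρ n)) Λ Real.pi
      (fun n => mu_finite) (by
        filter_upwards [hgood] with n hG
        rw [mu_real hG MeasurableSet.univ, setIntegral_univ]
        exact hG.2.2.2) hπ (closedBall 0 s) (isCompact_closedBall _ _) (by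
        intro y _
        by_cases hyA : y ∈ At
        · right
          have hys : ‖y‖ < s := by
            have := hs₀ hyA
            rw [mem_ball_zero_iff] at this
            linarith
          constructor
          · exact closedBall_mem_nhds_of_mem (by rwa [mem_ball_zero_iff])
          · intro U hU hyU
            obtain ⟨r, hr, hrU⟩ := Metric.isOpen_iff.1 hU y hyU
            filter_upwards [hyA r hr, hms y r] with n hn1 hn2
            rw [← hn2] at hn1
            have : (mu Λ (ρ n)).real (ball y r) ≤ (mu Λ (ρ n)).real U := by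
              have := mu_finite (Λ := Λ) (ρ := ρ n)
              exact measureReal_mono hrU
            linarith
        · left
          obtain ⟨r, hr, hrt⟩ := s3 y hyA
          refine ⟨ball y r, isOpen_ball, mem_ball_self hr, ?_⟩
          refine hrt.congr' ?_
          filter_upwards [hms y r] with n hn
          rw [hn])
    have hkey : ∀ y ∈ S, ∃ k : ℕ, m' y = 8 * Real.pi * k := by
      intro y hy
      obtain ⟨U, hU, hyU, hUt⟩ := hSm y hy
      obtain ⟨r, hr, hrU⟩ := Metric.isOpen_iff.1 hU y hyU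
      have ht : ∀ r', 0 < r' → r' ≤ r → Tendsto (fun n => ms (ρ n) y r') 𝒰 (𝓝 (m' y)) := by
        intro r' hr' hr'r
        have := hUt (ball y r') isOpen_ball (mem_ball_self hr') ((ball_subset_ball hr'r).trans hrU)
        refine this.congr' ?_
        filter_upwards [hms y r'] with n hn
        exact hn
      have hpos : Real.pi ≤ m' y := by
        refine ge_of_tendsto (ht r hr le_rfl) ?_
        filter_upwards [hSτ y hy (ball y r) isOpen_ball (mem_ball_self hr), hms y r] with n hn1 hn2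
        rwa [hn2] at hn1
      exact hk y (m' y) r (by linarith) hr fun r' hr' hr'' => ht r' hr' hr''.le
    choose! k hkk using hkey
    refine ⟨∑ y ∈ S, k y, ?_⟩
    have e1 : ∑ y ∈ S, m' y = 8 * Real.pi * ((∑ y ∈ S, k y : ℕ) : ℝ) := by
      push_cast
      rw [Finset.mul_sum]
      exact Finset.sum_congr rfl fun y hy => hkk y hy
    rw [← e1]
    refine tendsto_nhds_unique (hm s hs2) (hSt.congr' ?_)
    filter_upwards [hgood] with n hG
    rw [mu_real hG measurableSet_closedBall]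
    unfold ms
    apply setIntegral_congr_set
    rw [← ball_union_sphere]
    exact union_ae_eq_left_of_ae_eq_empty (ae_eq_empty.2 (Measure.addHaar_sphere _ _ _))
  have hcl : IsClosed (range (fun k : ℕ => (k : ℝ))) := Nat.isClosedEmbedding_coe_real.isClosed_range
  have hlim : Tendsto (fun s => m s / (8 * Real.pi)) atTop (𝓝 (M / (8 * Real.pi))) :=
    hM.div_const _
  have hmem : M / (8 * Real.pi) ∈ range (fun k : ℕ => (k : ℝ)) := by
    refine hcl.mem_of_tendsto hlim ?_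
    filter_upwards [eventually_gt_atTop (max s₀ 0)] with s hs
    obtain ⟨k, hk⟩ := s5 s hs
    refine ⟨k, ?_⟩
    rw [hk]
    field_simp
  obtain ⟨k, hk⟩ := hmem
  refine ⟨k, ?_⟩
  simp only at hk
  rw [hk]
  field_simp

end Pool.Agent.W787.PS.Lq
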