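import Pool.Agent.W787.PS.StmA

/-!
# PS-VIR: virial identity
-/

set_option autoImplicit false

open MeasureTheory Set Metric Filter Topology

noncomputable section

namespace Pool.Agent.W787.PS.Vir

open Pool.Agent.W787.PS

/-- the kernel `1/|z|` on a ball is integrable -/
theorem kint (A : ℝ) :
    Integrable (fun z : ℂ => (Iic A).indicator (fun y : ℝ => y⁻¹) ‖z‖) := by
  rw [integrable_fun_norm_addHaar]
  rw [Complex.finrank_real_complex]
  have h1 : IntegrableOn (fun y : ℝ => (Iic A).indicator (fun _ : ℝ => (1 : ℝ)) y) (Ioi 0) := by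
    have h2 : Integrable ((Ioi (0 : ℝ)).indicator
        (fun y : ℝ => (Iic A).indicator (fun _ : ℝ => (1 : ℝ)) y)) := by
      have h3 : (Ioi (0 : ℝ)).indicator (fun y : ℝ => (Iic A).indicator (fun _ : ℝ => (1 : ℝ)) y) =
          (Ioc 0 A).indicator (fun _ : ℝ => (1 : ℝ)) := by
        ext y
        by_cases h1 : 0 < y <;> by_cases h2 : y ≤ A <;> simp [indicator, h1, h2]
      rw [h3, integrable_indicator_iff measurableSet_Ioc]
      exact integrableOn_const (by simp)
    rwa [integrable_indicator_iff measurableSet_Ioi] at h2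
  refine h1.congr_fun ?_ measurableSet_Ioi
  intro y hy
  have hy0 : y ≠ 0 := ne_of_gt hy
  by_cases hA : y ≤ A
  · simp [indicator, hA, hy0]
  · simp [indicator, hA]

theorem div_zero (F : ℂ → ℝ) (hF : ContDiff ℝ 1 F) (hs : HasCompactSupport F) :
    ∫ x, (2 * F x + fderiv ℝ F x x) = 0 := by
  have hd : Differentiable ℝ F := hF.differentiable one_ne_zero
  have hc' : Continuous (fun x => fderiv ℝ F x) := hF.continuous_fderiv one_ne_zero
  have hs' : HasCompactSupport (fun x => fderiv ℝ F x) := hs.fderiv ℝ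
  have hiF : Integrable F := hF.continuous.integrable_of_hasCompactSupport hs
  have i1 : ∀ (v : ℂ) (ℓ : ℂ →L[ℝ] ℝ), Integrable (fun x => fderiv ℝ F x v * ℓ x) := by
    intro v ℓ
    apply Continuous.integrable_of_hasCompactSupport
    · fun_prop
    · apply HasCompactSupport.mul_right
      exact hs'.comp_left (g := fun L : ℂ →L[ℝ] ℝ => L v) rfl
  have key : ∀ (v : ℂ) (ℓ : ℂ →L[ℝ] ℝ), ℓ v = 1 →
      ∫ x, F x = - ∫ x, fderiv ℝ F x v * ℓ x := by
    intro v ℓ hℓ
    have h2 : Integrable (fun x => F x * fderiv ℝ (fun y => ℓ y) x v) := by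
      have : (fun x => F x * fderiv ℝ (fun y => ℓ y) x v) = F := by
        ext x
        rw [ContinuousLinearMap.fderiv, hℓ, mul_one]
      rw [this]
      exact hiF
    have h3 : Integrable (fun x => F x * ℓ x) := by
      apply Continuous.integrable_of_hasCompactSupport
      · fun_prop
      · exact hs.mul_right
    have h4 := integral_mul_fderiv_eq_neg_fderiv_mul_of_integrable (μ := volume) (i1 v ℓ) h2 h3
      (fun x _ => hd x) (fun x _ => ℓ.differentiableAt)
    rw [← h4]
    congr 1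
    ext x
    rw [ContinuousLinearMap.fderiv, hℓ, mul_one]
  have e1 := key 1 Complex.reCLM (by simp)
  have e2 := key Complex.I Complex.imCLM (by simp)
  have e3 : ∀ x : ℂ, fderiv ℝ F x x = fderiv ℝ F x 1 * Complex.reCLM x +
      fderiv ℝ F x Complex.I * Complex.imCLM x := by
    intro x
    have : x = x.re • (1 : ℂ) + x.im • Complex.I := by
      apply Complex.ext <;> simp
    have h5 : fderiv ℝ F x x = fderiv ℝ F x (x.re • (1 : ℂ) + x.im • Complex.I) := by
      rw [← this]
    rw [h5, map_add, map_smul, map_smul]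
    simp only [smul_eq_mul, Complex.reCLM_apply, Complex.imCLM_apply]
    ring
  have e4 : ∫ x, (2 * F x + fderiv ℝ F x x) = 2 * (∫ x, F x) +
      ((∫ x, fderiv ℝ F x 1 * Complex.reCLM x) + ∫ x, fderiv ℝ F x Complex.I * Complex.imCLM x) := by
    simp_rw [e3]
    rw [← integral_add (i1 1 Complex.reCLM) (i1 Complex.I Complex.imCLM), ← integral_const_mul]
    exact integral_add (hiF.const_mul 2) ((i1 1 Complex.reCLM).add (i1 Complex.I Complex.imCLM))
  rw [e4]
  linarith

/-- the kernel -/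
def KK (θ ρ : ℂ → ℝ) (p : ℂ × ℂ) : ℝ :=
  inner ℝ (p.1 - p.2) (θ p.1 • p.1) / ‖p.1 - p.2‖ ^ 2 * (ρ p.1 * ρ p.2)

theorem KK_int {θ ρ : ℂ → ℝ} (hθ : Continuous θ) (hρ : Continuous ρ) (hs : HasCompactSupport ρ) :
    Integrable (KK θ ρ) := by
  obtain ⟨A, hA⟩ : ∃ A : ℝ, ∀ x, A < ‖x‖ → ρ x = 0 := by
    obtain ⟨A, hA⟩ := hs.isBounded.subset_closedBall (0 : ℂ)
    refine ⟨A, fun x hx => ?_⟩
    by_contra h
    have := hA (subset_tsupport ρ h)
    rw [mem_closedBall_zero_iff] at this
    linarith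
  obtain ⟨C, hC⟩ : ∃ C : ℝ, ∀ x, ‖ρ x * (θ x * ‖x‖)‖ ≤ C := by
    apply Continuous.bounded_above_of_compact_support
    · fun_prop
    · exact hs.mul_right
  have hρi : Integrable ρ := hρ.integrable_of_hasCompactSupport hs
  have h1 := hρi.norm.convolution_integrand (ContinuousLinearMap.mul ℝ ℝ) (kint (2 * A))
  have h2 := h1.const_mul C
  refine Integrable.mono' h2 ?_ (Eventually.of_forall fun p => ?_)
  · unfold KK
    apply Measurable.aestronglyMeasurable
    fun_prop
  · obtain ⟨x, y⟩ := p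
    simp only [ContinuousLinearMap.mul_apply', KK]
    have hC0 : 0 ≤ C := (norm_nonneg _).trans (hC 0)
    by_cases hx : ρ x = 0
    · rw [hx]
      simp only [zero_mul, mul_zero, norm_zero]
      apply mul_nonneg hC0
      apply mul_nonneg (norm_nonneg _)
      exact indicator_apply_nonneg fun _ => inv_nonneg.2 (norm_nonneg _)
    by_cases hy : ρ y = 0
    · rw [hy]
      simp
    have hxA : ‖x‖ ≤ A := by
      by_contra h
      exact hx (hA x (not_le.1 h))
    have hyA : ‖y‖ ≤ A := by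
      by_contra h
      exact hy (hA y (not_le.1 h))
    have hxy : ‖x - y‖ ≤ 2 * A := (norm_sub_le _ _).trans (by linarith)
    rw [indicator_of_mem (by exact hxy)]
    have h3 := hC x
    rw [norm_mul, norm_mul, norm_norm] at h3
    by_cases hz : x - y = 0
    · rw [hz]
      simp
    have hz' : 0 < ‖x - y‖ := norm_pos_iff.2 hz
    have h4 : |inner ℝ (x - y) (θ x • x)| ≤ ‖x - y‖ * (‖θ x‖ * ‖x‖) := by
      have := abs_real_inner_le_norm (x - y) (θ x • x)
      rwa [norm_smul] at this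
    rw [norm_mul, norm_div, norm_pow, norm_norm, norm_mul, Real.norm_eq_abs (inner ℝ _ _)]
    calc |inner ℝ (x - y) (θ x • x)| / ‖x - y‖ ^ 2 * (‖ρ x‖ * ‖ρ y‖)
        ≤ (‖x - y‖ * (‖θ x‖ * ‖x‖)) / ‖x - y‖ ^ 2 * (‖ρ x‖ * ‖ρ y‖) := by gcongr
      _ = (‖ρ x‖ * (‖θ x‖ * ‖x‖)) * (‖ρ y‖ * ‖x - y‖⁻¹) := by
          field_simp
      _ ≤ C * (‖ρ y‖ * ‖x - y‖⁻¹) := by gcongr

/-- Virial identity (`S_VIR` with the intended parentheses). -/
def S_VIR2 : Prop := ∀ (Λ R L ε : ℝ) (ρ g w : ℂ → ℝ), IsDatum Λ R L ε ρ g w →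
  ∀ θ : ℂ → ℝ, ContDiff ℝ 1 θ → HasCompactSupport θ → tsupport θ ⊆ ball 0 R →
  ∫ x, (2 * θ x + fderiv ℝ θ x x) * ρ x =
    1 / (4 * Real.pi) * (∫ p : ℂ × ℂ, inner ℝ (θ p.1 • p.1 - θ p.2 • p.2) (p.1 - p.2)
        / ‖p.1 - p.2‖ ^ 2 * (ρ p.1 * ρ p.2))
      - (∫ x, θ x * fderiv ℝ g x x * ρ x) - (∫ x, θ x * fderiv ℝ w x x * ρ x)

theorem vir (h1 : S_POTD) : S_VIR2 := by
  intro Λ R L ε ρ g w hD θ hθ hθs hθR
  obtain ⟨p1, p2, p3, p4⟩ := h1 ρ hD.diff hD.supp
  have hρd : Differentiable ℝ ρ := hD.diff.differentiable one_ne_zero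
  have hθd : Differentiable ℝ θ := hθ.differentiable one_ne_zero
  -- the three fields
  have hK := KK_int hθ.continuous hD.diff.continuous hD.supp
  -- (1)
  have s1 := div_zero (fun x => θ x * ρ x) (hθ.mul hD.diff) hθs.mul_right
  have s2 : ∀ x, fderiv ℝ (fun x => θ x * ρ x) x x =
      fderiv ℝ θ x x * ρ x + θ x * fderiv ℝ ρ x x := by
    intro x
    have := fderiv_mul (hθd x) (hρd x)
    have h3 : (fun x => θ x * ρ x) = θ * ρ := rfl
    rw [h3, this]
    simp only [_root_.add_apply, _root_.smul_apply, smul_eq_mul]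
    ring
  -- (2)
  have s3 : ∀ x, θ x * fderiv ℝ ρ x x = θ x * fderiv ℝ (pot ρ) x x * ρ x +
      θ x * fderiv ℝ g x x * ρ x + θ x * fderiv ℝ w x x * ρ x := by
    intro x
    by_cases hx : x ∈ ball (0 : ℂ) R
    · have hn : ball (0 : ℂ) R ∈ 𝓝 x := isOpen_ball.mem_nhds hx
      have hg : DifferentiableAt ℝ g x := (hD.g_diff.differentiableOn one_ne_zero).differentiableAt hn
      have hw : DifferentiableAt ℝ w x := (hD.w_diff.differentiableOn one_ne_zero).differentiableAt hn
      have hp : DifferentiableAt ℝ (pot ρ) x := p1.differentiable one_ne_zero x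
      have he : ρ =ᶠ[𝓝 x] fun x => Real.exp (pot ρ x + g x + w x) := by
        filter_upwards [hn] with y hy
        exact hD.eq y hy
      have hf : HasFDerivAt (fun x => Real.exp (pot ρ x + g x + w x))
          (Real.exp (pot ρ x + g x + w x) • (fderiv ℝ (pot ρ) x + fderiv ℝ g x + fderiv ℝ w x)) x :=
        ((hp.hasFDerivAt.add hg.hasFDerivAt).add hw.hasFDerivAt).exp
      rw [he.fderiv_eq, hf.fderiv, ← hD.eq x hx]
      simp only [_root_.add_apply, _root_.smul_apply, smul_eq_mul]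
      ring
    · have : θ x = 0 := by
        by_contra h
        exact hx (hθR (subset_tsupport θ h))
      rw [this]
      ring
  -- (3) integrability
  have hi : ∀ (h : ℂ → ℝ), ContDiffOn ℝ 1 h (ball 0 R) →
      Integrable (fun x => θ x * fderiv ℝ h x x * ρ x) := by
    intro h hh
    have hc : ContinuousOn (fun x => fderiv ℝ h x) (ball 0 R) :=
      hh.continuousOn_fderiv_of_isOpen isOpen_ball le_rfl
    have h2 : IntegrableOn (fun x => θ x * fderiv ℝ h x x * ρ x) (tsupport θ) := by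
      apply ContinuousOn.integrableOn_compact hθs
      have hc2 : ContinuousOn (fun x => fderiv ℝ h x x) (tsupport θ) :=
        (hc.mono hθR).clm_apply continuousOn_id
      exact (hθ.continuous.continuousOn.mul hc2).mul hD.diff.continuous.continuousOn
    rw [integrableOn_iff_integrable_of_support_subset] at h2
    · exact h2
    · intro x hx
      apply subset_tsupport θ
      intro h0
      apply hx
      simp [h0]
  have ig := hi g hD.g_diff
  have iw := hi w hD.w_diff
  have ip := hi (pot ρ) p1.contDiffOn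
  -- (4)
  have s4 : ∫ x, θ x * fderiv ℝ (pot ρ) x x * ρ x = -(1 / (2 * Real.pi)) * ∫ p : ℂ × ℂ, KK θ ρ p := by
    rw [Measure.volume_eq_prod, integral_prod _ (by rwa [Measure.volume_eq_prod] at hK),
      ← integral_const_mul]
    congr 1
    ext x
    rw [p4 x x]
    unfold KK
    simp only
    have : ∀ y : ℂ, inner ℝ (x - y) (θ x • x) / ‖x - y‖ ^ 2 * (ρ x * ρ y) =
        (θ x * ρ x) * (inner ℝ (x - y) x / ‖x - y‖ ^ 2 * ρ y) := by
      intro y
      rw [inner_smul_right]
      ring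
    simp_rw [this]
    rw [integral_const_mul]
    ring
  have s5 : ∫ p : ℂ × ℂ, inner ℝ (θ p.1 • p.1 - θ p.2 • p.2) (p.1 - p.2)
        / ‖p.1 - p.2‖ ^ 2 * (ρ p.1 * ρ p.2) = 2 * ∫ p : ℂ × ℂ, KK θ ρ p := by
    have e1 : ∫ p : ℂ × ℂ, KK θ ρ p.swap = ∫ p : ℂ × ℂ, KK θ ρ p := by
      rw [Measure.volume_eq_prod]
      exact integral_prod_swap (μ := (volume : Measure ℂ)) (ν := (volume : Measure ℂ)) (KK θ ρ)
    have hK2 : Integrable (fun p : ℂ × ℂ => KK θ ρ p.swap) := by
      rw [Measure.volume_eq_prod] at hK ⊢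
      exact hK.swap
    have e2 : ∀ p : ℂ × ℂ, inner ℝ (θ p.1 • p.1 - θ p.2 • p.2) (p.1 - p.2)
        / ‖p.1 - p.2‖ ^ 2 * (ρ p.1 * ρ p.2) = KK θ ρ p + KK θ ρ p.swap := by
      rintro ⟨x, y⟩
      unfold KK
      simp only [Prod.swap]
      rw [norm_sub_rev y x, ← neg_sub x y, inner_neg_left, inner_sub_left,
        real_inner_comm (x - y) (θ x • x), real_inner_comm (x - y) (θ y • y)]
      ring
    simp_rw [e2]
    rw [integral_add hK hK2, e1]
    ring
  -- (5)
  have iθ : Integrable (fun x => (2 * θ x + fderiv ℝ θ x x) * ρ x) := by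
    apply Continuous.integrable_of_hasCompactSupport
    · have := hθ.continuous_fderiv one_ne_zero
      have := hD.diff.continuous
      have := hθ.continuous
      fun_prop
    · exact hD.supp.mul_left
  have iρ : Integrable (fun x => θ x * fderiv ℝ ρ x x) := by
    have : (fun x => θ x * fderiv ℝ ρ x x) = fun x => θ x * fderiv ℝ (pot ρ) x x * ρ x +
      θ x * fderiv ℝ g x x * ρ x + θ x * fderiv ℝ w x x * ρ x := funext s3
    rw [this]
    exact (ip.add ig).add iw
  have s6 : ∫ x, (2 * θ x + fderiv ℝ θ x x) * ρ x = - ∫ x, θ x * fderiv ℝ ρ x x := by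
    have e1 : ∫ x, (2 * (θ x * ρ x) + fderiv ℝ (fun x => θ x * ρ x) x x) =
        (∫ x, (2 * θ x + fderiv ℝ θ x x) * ρ x) + ∫ x, θ x * fderiv ℝ ρ x x := by
      rw [← integral_add iθ iρ]
      congr 1
      ext x
      rw [s2]
      ring
    rw [e1] at s1
    linarith
  have s7 : ∫ x, θ x * fderiv ℝ ρ x x = (∫ x, θ x * fderiv ℝ (pot ρ) x x * ρ x) +
      (∫ x, θ x * fderiv ℝ g x x * ρ x) + ∫ x, θ x * fderiv ℝ w x x * ρ x := by
    simp_rw [s3]
    rw [← integral_add ip ig]
    exact integral_add (ip.add ig) iw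
  rw [s6, s7, s4, s5]
  field_simp
  ring

end Pool.Agent.W787.PS.Vir
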